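import Pool.Agent.W253.ML.Noeth
import Pool.Agent.W512.ML.Dim

/-!
ML-REGA: at a point with trivial stabiliser the maximal ideal of the ring of invariant rational
functions is generated by as many elements as the codimension of the orbit.
-/

open MvPolynomial

namespace Pool.Agent.W253.MLR

open Pool.Agent.W512.ML Pool.Agent.W253.ML Pool.Agent.Helper819.Dyn Pool.Agent.Helper819.Apolar

noncomputable section

set_option linter.unusedSectionVars false
set_option synthInstance.maxHeartbeats 400000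

section general

variable {k R σ : Type} [Field k] [CommRing R] [Algebra k R]

/-- scaling of homogeneous polynomials -/
theorem aeval_scale {G : MvPolynomial σ k} {n : ℕ} (hG : G.IsHomogeneous n) (t : R) (h : σ → R) :
    aeval (fun l => t * h l) G = t ^ n * aeval h G := by
  classical
  rw [aeval_def, aeval_def, eval₂_eq, eval₂_eq, Finset.mul_sum]
  refine Finset.sum_congr rfl fun s hs => ?_
  have h1 : ∑ i ∈ s.support, s i = n := by
    have := hG (mem_support_iff.1 hs)
    rw [Finsupp.weight_apply, Finsupp.sum] at this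
    simpa using this
  rw [← h1, ← Finset.prod_pow_eq_pow_sum]
  simp_rw [mul_pow]
  rw [Finset.prod_mul_distrib]
  ring

theorem aeval_mem_pow {G : MvPolynomial σ k} {n : ℕ} (hG : G.IsHomogeneous n) (I : Ideal R)
    (h : σ → R) (hh : ∀ l, h l ∈ I) : aeval h G ∈ I ^ n := by
  classical
  rw [aeval_def, eval₂_eq]
  refine Ideal.sum_mem _ fun s hs => Ideal.mul_mem_left _ _ ?_
  have h1 : ∑ i ∈ s.support, s i = n := by
    have := hG (mem_support_iff.1 hs)
    rw [Finsupp.weight_apply, Finsupp.sum] at this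
    simpa using this
  rw [← h1, ← Finset.prod_pow_eq_pow_sum]
  exact Ideal.prod_mem_prod fun i _ => Ideal.pow_mem_pow (hh i) _

end general

section taylor

variable {k σ τ : Type} [Field k]

open Pool.Agent.Helper819.Gr (tayl lf Ord)

theorem tayl_aeval (c : σ → k) (q : τ → MvPolynomial σ k) (hq : ∀ l, lf 0 (q l) c = 0)
    {G : MvPolynomial τ k} {n : ℕ} (hG : G.IsHomogeneous n) :
    tayl (fun p => (C (c p) : MvPolynomial σ k)) X (aeval q G) = Polynomial.X ^ n *
      aeval (fun l => (tayl (fun p => (C (c p) : MvPolynomial σ k)) X (q l)).divX) G := by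
  rw [← aeval_scale hG, comp_aeval_apply]
  congr 2
  funext l
  have h1 := Polynomial.divX_mul_X_add (tayl (fun p => (C (c p) : MvPolynomial σ k)) X (q l))
  have h2 : (tayl (fun p => (C (c p) : MvPolynomial σ k)) X (q l)).coeff 0 = 0 := hq l
  rw [h2, Polynomial.C_0, add_zero] at h1
  rw [mul_comm]
  exact h1.symm

theorem coeff_zero_aeval {R : Type} [CommRing R] [Algebra k R] (h : τ → Polynomial R)
    (G : MvPolynomial τ k) : (aeval h G).coeff 0 = aeval (fun l => (h l).coeff 0) G := by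
  have h1 := comp_aeval_apply h ((Polynomial.aeval (0 : R) : Polynomial R →ₐ[R] R).restrictScalars k) G
  change (Polynomial.aeval (0 : R) : Polynomial R →ₐ[R] R) _ = _ at h1
  rw [Polynomial.coeff_zero_eq_aeval_zero, h1]
  congr 2
  funext l
  exact (Polynomial.coeff_zero_eq_aeval_zero _).symm

theorem lf_aeval_lt (c : σ → k) (q : τ → MvPolynomial σ k) (hq : ∀ l, lf 0 (q l) c = 0)
    {G : MvPolynomial τ k} {n : ℕ} (hG : G.IsHomogeneous n) : Ord n (aeval q G) c := by
  intro i hi
  unfold lf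
  rw [tayl_aeval c q hq hG, Polynomial.coeff_X_pow_mul', if_neg (by omega)]

theorem lf_aeval_eq (c : σ → k) (q : τ → MvPolynomial σ k) (hq : ∀ l, lf 0 (q l) c = 0)
    {G : MvPolynomial τ k} {n : ℕ} (hG : G.IsHomogeneous n) :
    lf n (aeval q G) c = aeval (fun l => lf 1 (q l) c) G := by
  unfold lf
  rw [tayl_aeval c q hq hG, Polynomial.coeff_X_pow_mul', if_pos le_rfl, Nat.sub_self,
    coeff_zero_aeval]
  simp only [Polynomial.coeff_divX, zero_add]

end taylor

section ideal

variable {k : Type} [Field k] [Infinite k] {N d : ℕ}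

open Pool.Agent.Helper819.Gr (tayl lf Ord)

theorem ord_pow {f : Ix N d → k} {n : ℕ} {P : SS k N d} (h : Ord n P f) : P ∈ pt f ^ n := by
  have h1 : P = (tayl (fun p => algebraMap k (SS k N d) (f p)) (fun p => X p - C (f p)) P).eval 1 := by
    rw [Helper819.Gr.eval_tayl]
    have h2 : (fun p => algebraMap k (SS k N d) (f p) + 1 * (X p - C (f p))) = X := by
      funext p
      change C (f p) + 1 * (X p - C (f p)) = X p
      ring
    rw [h2, aeval_X_left]
    rfl
  rw [h1, Polynomial.eval_eq_sum_range]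
  refine Ideal.sum_mem _ fun i _ => ?_
  rw [one_pow, mul_one, ← Helper819.Gr.aeval_lf]
  by_cases hi : i < n
  · rw [h i hi, map_zero]
    exact Ideal.zero_mem _
  · refine Ideal.pow_le_pow_right (not_lt.1 hi) ?_
    refine aeval_mem_pow (Helper819.Gr.lf_homog i P f) _ _ fun p => ?_
    change eval f (X p - C (f p)) = 0
    rw [map_sub, eval_X, eval_C, sub_self]

theorem toR_pow {f : Ix N d → k} {n : ℕ} {P : SS k N d} (h : P ∈ pt f ^ n) :
    toR f P ∈ IsLocalRing.maximalIdeal (Rloc f) ^ n := by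
  have h1 : pt f ≤ (IsLocalRing.maximalIdeal (Rloc f)).comap (toR f) := by
    intro P hP
    rw [Ideal.mem_comap, mem_maxR, valf_toR]
    exact hP
  exact Ideal.le_comap_pow (toR f) n (Ideal.pow_right_mono h1 n h)

end ideal

section dual

variable {k : Type} [Field k] {N d : ℕ}

theorem exists_dual {ν : ℕ} {e : Ix N d ≃ Fin ν ⊕ (Fin (N + 1) × Fin (N + 1))}
    {τ : Fin ν → Ix N d → k} {f : Ix N d → k}
    (h : LinearIndependent k (fun a : Ix N d =>
      Sum.elim τ (fun ij => Helper819.Dyn.xi (Eij k N ij) f) (e a))) :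
    ∃ ℓ : Fin ν → Ix N d → k, (∀ l j, ∑ p, ℓ l p * τ j p = if j = l then 1 else 0) ∧
      (∀ l Y, ∑ p, ℓ l p * Helper819.Dyn.xi Y f p = 0) ∧
      (∀ v : Ix N d → k, ∃ Y, v = (∑ l, (∑ p, ℓ l p * v p) • τ l) + Helper819.Dyn.xi Y f) := by
  classical
  set M : Matrix (Ix N d) (Ix N d) k := Matrix.of (fun a : Ix N d =>
      Sum.elim τ (fun ij => Helper819.Dyn.xi (Eij k N ij) f) (e a)) with hM
  have h2 : LinearIndependent k M.row := h
  rw [Matrix.linearIndependent_rows_iff_isUnit, Matrix.isUnit_iff_isUnit_det] at h2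
  have e1 := Matrix.mul_nonsing_inv M h2
  have e2 := Matrix.nonsing_inv_mul M h2
  have hτ : ∀ j p, M (e.symm (Sum.inl j)) p = τ j p := by
    intro j p
    rw [hM, Matrix.of_apply, Equiv.apply_symm_apply, Sum.elim_inl]
  have hξ : ∀ ij p, M (e.symm (Sum.inr ij)) p = Helper819.Dyn.xi (Eij k N ij) f p := by
    intro ij p
    rw [hM, Matrix.of_apply, Equiv.apply_symm_apply, Sum.elim_inr]
  have hY : ∀ Y : Matrix (Fin (N + 1)) (Fin (N + 1)) k, Helper819.Dyn.xi Y f =
      ∑ ij : Fin (N + 1) × Fin (N + 1), Y ij.1 ij.2 • Helper819.Dyn.xi (Eij k N ij) f := by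
    intro Y
    conv_lhs => rw [sum_Eij Y]
    rw [xi_sum]
    exact Finset.sum_congr rfl fun ij _ => Helper819.Dyn.xi_smul _ _ _
  have hE : ∀ l ij, ∑ p, M⁻¹ p (e.symm (Sum.inl l)) * Helper819.Dyn.xi (Eij k N ij) f p = 0 := by
    intro l ij
    have h3 := congrFun (congrFun e1 (e.symm (Sum.inr ij))) (e.symm (Sum.inl l))
    rw [Matrix.mul_apply, Matrix.one_apply_ne (fun h => by simp at h)] at h3
    rw [← h3]
    exact Finset.sum_congr rfl fun p _ => by rw [hξ, mul_comm]
  refine ⟨fun l p => M⁻¹ p (e.symm (Sum.inl l)), ?_, ?_, ?_⟩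
  · intro l j
    have h3 := congrFun (congrFun e1 (e.symm (Sum.inl j))) (e.symm (Sum.inl l))
    rw [Matrix.mul_apply, Matrix.one_apply] at h3
    have h4 : (e.symm (Sum.inl j) = e.symm (Sum.inl l)) ↔ j = l := by
      rw [e.symm.injective.eq_iff, Sum.inl.injEq]
    simp only [h4] at h3
    rw [← h3]
    exact Finset.sum_congr rfl fun p _ => by rw [hτ, mul_comm]
  · intro l Y
    rw [hY]
    have h4 : ∀ p, M⁻¹ p (e.symm (Sum.inl l)) * (∑ ij : Fin (N + 1) × Fin (N + 1),
        Y ij.1 ij.2 • Helper819.Dyn.xi (Eij k N ij) f) p =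
        ∑ ij : Fin (N + 1) × Fin (N + 1), Y ij.1 ij.2 *
          (M⁻¹ p (e.symm (Sum.inl l)) * Helper819.Dyn.xi (Eij k N ij) f p) := by
      intro p
      rw [Finset.sum_apply, Finset.mul_sum]
      refine Finset.sum_congr rfl fun ij _ => ?_
      rw [Pi.smul_apply, smul_eq_mul]
      ring
    simp only [h4]
    rw [Finset.sum_comm]
    refine Finset.sum_eq_zero fun ij _ => ?_
    rw [← Finset.mul_sum, hE, mul_zero]
  · intro v
    refine ⟨Matrix.of fun i j => ∑ p, M⁻¹ p (e.symm (Sum.inr (i, j))) * v p, ?_⟩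
    rw [hY]
    funext q
    have h3 : Matrix.vecMul (Matrix.vecMul v M⁻¹) M = v := by
      rw [Matrix.vecMul_vecMul, e2, Matrix.vecMul_one]
    have h4 := congrFun h3 q
    have h5 : Matrix.vecMul (Matrix.vecMul v M⁻¹) M q =
        ∑ a, (∑ p, M⁻¹ p a * v p) * M a q := by
      simp only [Matrix.vecMul, dotProduct]
      exact Finset.sum_congr rfl fun a _ => by
        congr 1
        exact Finset.sum_congr rfl fun p _ => mul_comm _ _
    rw [h5, ← Equiv.sum_comp e.symm, Fintype.sum_sum_type] at h4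
    rw [← h4, Pi.add_apply, Finset.sum_apply, Finset.sum_apply]
    congr 1
    · refine Finset.sum_congr rfl fun l _ => ?_
      rw [Pi.smul_apply, smul_eq_mul, hτ]
    · refine Finset.sum_congr rfl fun ij _ => ?_
      rw [Pi.smul_apply, smul_eq_mul, hξ]
      rfl

end dual

section main

variable {k : Type} [Field k] {N d : ℕ} [IsAlgClosed k] [CharZero k]

open Pool.Agent.Helper819.Gr (tayl lf Ord)

/-- the leading forms of semi-invariants are polynomials in the conormal forms -/
theorem lf_eq {f : Ix N d → k} {ν : ℕ} {τ ℓ : Fin ν → Ix N d → k}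
    (hdec : ∀ v : Ix N d → k, ∃ Y, v = (∑ l, (∑ p, ℓ l p * v p) • τ l) + Helper819.Dyn.xi Y f)
    {w n : ℕ} {P : SS k N d} (hP : IsSemi w P) (hn : Ord n P f) :
    aeval (fun l => ∑ p, C (ℓ l p) * X p) (aeval (fun p => (∑ l, C (τ l p) * X l :
      MvPolynomial (Fin ν) k)) (lf n P f)) = lf n P f := by
  apply MvPolynomial.funext
  intro v
  obtain ⟨Y, hY⟩ := hdec v
  have h1 : eval v (lf n P f) = eval (∑ l, (∑ p, ℓ l p * v p) • τ l) (lf n P f) := by
    conv_lhs => rw [hY]
    exact Helper819.Gr.lf_xi (α := MA N d) (w := fun _ => w) ((isSemi_iff _ _).mpr hP) hn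
      (fun _ => Y) _
  rw [h1, ← coe_aeval_eq_eval, ← coe_aeval_eq_eval]
  change aeval v (aeval _ (aeval _ _)) = aeval _ _
  rw [comp_aeval_apply, comp_aeval_apply]
  congr 2
  funext p
  rw [map_sum, Finset.sum_apply]
  refine Finset.sum_congr rfl fun l _ => ?_
  rw [map_mul, aeval_X, algHom_C, map_sum, Pi.smul_apply, smul_eq_mul, mul_comm]
  congr 1
  refine Finset.sum_congr rfl fun p' _ => ?_
  rw [map_mul, aeval_X, algHom_C]
  rfl

theorem step {f : Ix N d → k} {ν : ℕ} {τ ℓ : Fin ν → Ix N d → k}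
    (hdec : ∀ v : Ix N d → k, ∃ Y, v = (∑ l, (∑ p, ℓ l p * v p) • τ l) + Helper819.Dyn.xi Y f)
    {wB : ℕ} {B : SS k N d} {q : Fin ν → SS k N d} (hB : IsSemi wB B) (hB0 : eval f B ≠ 0)
    (hq : ∀ l, IsSemi wB (q l)) (hq0 : ∀ l, lf 0 (q l) f = 0)
    (hq1 : ∀ l, lf 1 (q l) f = C (eval f B) * ∑ p, C (ℓ l p) * X p)
    {w n : ℕ} {P Q : SS k N d} (hP : IsSemi w P) (hQ : IsSemi w Q) (hQ0 : eval f Q ≠ 0)
    (hn : Ord n P f) :
    ∃ (G : MvPolynomial (Fin ν) k) (w' : ℕ) (P' Q' : SS k N d), G.IsHomogeneous n ∧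
      IsSemi w' P' ∧ IsSemi w' Q' ∧ eval f Q' ≠ 0 ∧ Ord (n + 1) P' f ∧
      jj k N d P / jj k N d Q = aeval (fun l => jj k N d (q l) / jj k N d B) G +
        jj k N d P' / jj k N d Q' := by
  set G0 : MvPolynomial (Fin ν) k := aeval (fun p => (∑ l, C (τ l p) * X l :
      MvPolynomial (Fin ν) k)) (lf n P f) with hG0
  have hG0h : G0.IsHomogeneous n := by
    have h1 := (Helper819.Gr.lf_homog n P f).aeval (m := n) (n := 1)
      (fun p => (∑ l, C (τ l p) * X l : MvPolynomial (Fin ν) k))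
      (fun p => IsHomogeneous.sum _ _ _ fun l _ => isHomogeneous_C_mul_X _ _)
    rwa [one_mul] at h1
  have hlf := lf_eq hdec hP hn
  rw [← hG0] at hlf
  have hgq : IsSemi (wB * n) (aeval q G0) := by
    intro A c
    have h1 : ∀ c : Ix N d → k, eval c (aeval q G0) = aeval (fun l => eval c (q l)) G0 := by
      intro c
      rw [← coe_aeval_eq_eval]
      change aeval c (aeval q G0) = _
      rw [comp_aeval_apply]
      rfl
    rw [h1, h1]
    have h2 : (fun l => eval (actT A c) (q l)) = fun l => A.det ^ wB * eval c (q l) := by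
      funext l
      exact hq l A c
    rw [h2, aeval_scale hG0h, pow_mul]
  have hlfg : lf n (aeval q G0) f = C (eval f B ^ n) * lf n P f := by
    rw [lf_aeval_eq f q hq0 hG0h]
    have h1 : (fun l => lf 1 (q l) f) = fun l => C (eval f B) * ∑ p, C (ℓ l p) * X p := funext hq1
    rw [h1, aeval_scale hG0h, hlf, map_pow]
  have hBn : IsSemi (wB * n) (B ^ n) := hB.pow n
  refine ⟨C (eval f Q)⁻¹ * G0, w + wB * n, C (eval f Q) * B ^ n * P - Q * aeval q G0,
    C (eval f Q) * (Q * B ^ n), hG0h.C_mul _, ?_, (hQ.mul hBn).C_mul _, ?_, ?_, ?_⟩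
  · refine IsSemi.sub ?_ (hQ.mul hgq)
    have := (hP.mul hBn).C_mul (eval f Q)
    have h2 : C (eval f Q) * B ^ n * P = C (eval f Q) * (P * B ^ n) := by ring
    rw [h2]
    exact this
  · rw [map_mul, eval_C, map_mul, map_pow]
    exact mul_ne_zero hQ0 (mul_ne_zero hQ0 (pow_ne_zero _ hB0))
  · intro i hi
    rcases Nat.lt_succ_iff_lt_or_eq.1 hi with hi | rfl
    · rw [Helper819.Gr.lf_sub, hn.mul_left _ i hi, (lf_aeval_lt f q hq0 hG0h).mul_left _ i hi,
        sub_zero]
    · rw [Helper819.Gr.lf_sub, Helper819.Gr.lf_mul_left hn,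
        Helper819.Gr.lf_mul_left (lf_aeval_lt f q hq0 hG0h), hlfg, map_mul, eval_C, map_pow,
        ← mul_assoc, ← C_mul, sub_self]
  · have hB' := jj_ne hB0
    have hQ' := jj_ne hQ0
    have h1 : aeval (fun l => jj k N d (q l) / jj k N d B) G0 =
        jj k N d (aeval q G0) / jj k N d B ^ n := by
      have h2 : (fun l => jj k N d (q l) / jj k N d B) =
          fun l => (jj k N d B)⁻¹ * jj k N d (q l) := by
        funext l
        rw [div_eq_inv_mul]
      rw [h2, aeval_scale hG0h, inv_pow, div_eq_inv_mul]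
      congr 1
      exact (comp_aeval_apply q (jj k N d) G0).symm
    have h3 : ∀ a : k, jj k N d (C a) = algebraMap k (KK k N d) a :=
      fun a => AlgHom.commutes (jj k N d) a
    have h4 : algebraMap k (KK k N d) (eval f Q) ≠ 0 := by
      rw [Ne, map_eq_zero]
      exact hQ0
    rw [map_mul, h1, algHom_C, map_sub, map_mul, map_mul, map_mul, map_mul, map_mul, map_pow, h3,
      map_inv₀]
    field_simp
    ring

theorem approx (hd : 2 ≤ d) {f : Ix N d → k} (hf : NZ (tup f)) {ν : ℕ} {τ ℓ : Fin ν → Ix N d → k}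
    (hdec : ∀ v : Ix N d → k, ∃ Y, v = (∑ l, (∑ p, ℓ l p * v p) • τ l) + Helper819.Dyn.xi Y f)
    {wB : ℕ} {B : SS k N d} {q : Fin ν → SS k N d} (hB : IsSemi wB B) (hB0 : eval f B ≠ 0)
    (hq : ∀ l, IsSemi wB (q l)) (hq0 : ∀ l, lf 0 (q l) f = 0)
    (hq1 : ∀ l, lf 1 (q l) f = C (eval f B) * ∑ p, C (ℓ l p) * X p)
    (y : Fin ν → Oloc f) (hy : ∀ l, (y l : KK k N d) = jj k N d (q l) / jj k N d B)
    (a : Oloc f) (ha : val0 f a = 0) (n : ℕ) :
    ∃ (b : Oloc f) (w : ℕ) (P Q : SS k N d), b ∈ Ideal.span (Set.range y) ∧ IsSemi w P ∧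
      IsSemi w Q ∧ eval f Q ≠ 0 ∧ Ord (n + 1) P f ∧
      (a : KK k N d) = b + jj k N d P / jj k N d Q := by
  induction n with
  | zero =>
    obtain ⟨w, P, Q, hP, hQ, hQ0, haPQ⟩ := semi_rep hd hf a a.2
    refine ⟨0, w, P, Q, Ideal.zero_mem _, hP, hQ, hQ0, ?_, by rw [haPQ]; exact (zero_add _).symm⟩
    intro i hi
    have hi0 : i = 0 := by omega
    subst hi0
    apply MvPolynomial.funext
    intro v
    rw [Helper819.Gr.eval_lf, Helper819.Gr.tayl_coeff_zero, map_zero]
    rw [val0_eq hQ0 haPQ, div_eq_zero_iff, or_iff_left hQ0] at ha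
    rw [← ha, ← coe_aeval_eq_eval]
    rfl
  | succ n ih =>
    obtain ⟨b, w, P, Q, hb, hP, hQ, hQ0, hn, hab⟩ := ih
    obtain ⟨G, w', P', Q', hG, hP', hQ', hQ0', hn', h1⟩ :=
      step hdec hB hB0 hq hq0 hq1 hP hQ hQ0 hn
    refine ⟨b + aeval y G, w', P', Q', Ideal.add_mem _ hb ?_, hP', hQ', hQ0', hn', ?_⟩
    · have h2 := aeval_mem_pow hG (Ideal.span (Set.range y)) y
        (fun l => Ideal.subset_span ⟨l, rfl⟩)
      exact Ideal.pow_le_self (Nat.succ_ne_zero n) h2
    · have h3 : ((aeval y G : Oloc f) : KK k N d) =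
          aeval (fun l => jj k N d (q l) / jj k N d B) G := by
        change (Oloc f).val (aeval y G) = _
        rw [comp_aeval_apply]
        congr 2
        funext l
        exact hy l
      rw [hab, h1, Subalgebra.coe_add, h3]
      ring

theorem gens (hd : 2 ≤ d) {f : Ix N d → k} (hf : NZ (tup f))
    (triv : ∀ A : Matrix (Fin (N + 1)) (Fin (N + 1)) k, A.det ≠ 0 → actT A f = f →
      ∃ μ : k, A = μ • 1) :
    ∃ (ν : ℕ) (_ : Ix N d ≃ Fin ν ⊕ (Fin (N + 1) × Fin (N + 1))) (y : Fin ν → Oloc f),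
      (∀ i, val0 f (y i) = 0) ∧
      LinearIndependent k (fun i => fun p => val0 f (pdK p (y i : KK k N d))) ∧
      IsLocalRing.maximalIdeal (Oloc f) = Ideal.span (Set.range y) := by
  classical
  obtain ⟨ν, e, τ, hτ⟩ := exists_tau hd hf
  obtain ⟨ℓ, hl1, hl2, hdec⟩ := exists_dual hτ
  obtain ⟨r, D, hD, hD0, hDnz⟩ := exists_semi_NZ hd hf
  have hlead := fun l => lead hd hf hD hDnz triv (ℓ l) (hl2 l)
  choose m q0 hq0s hq00 hq01 using hlead
  set M := ∑ l, m l with hM
  have hmM : ∀ l, m l ≤ M := fun l => Finset.single_le_sum (fun _ _ => Nat.zero_le _)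
    (Finset.mem_univ l)
  set B := D ^ M with hBdef
  set q : Fin ν → SS k N d := fun l => D ^ (M - m l) * q0 l with hqdef
  have hB : IsSemi (r * M) B := hD.pow M
  have hB0 : eval f B ≠ 0 := by
    rw [hBdef, map_pow]
    exact pow_ne_zero _ hD0
  have hqs : ∀ l, IsSemi (r * M) (q l) := by
    intro l
    have h1 := (hD.pow (M - m l)).mul (hq0s l)
    have h2 : r * (M - m l) + m l * r = r * M := by
      rw [mul_comm (m l), ← mul_add, Nat.sub_add_cancel (hmM l)]
    rwa [h2] at h1
  have hlf00 : ∀ l, lf 0 (q0 l) f = 0 := by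
    intro l
    apply MvPolynomial.funext
    intro v
    rw [Helper819.Gr.eval_lf, Helper819.Gr.tayl_coeff_zero, map_zero, ← hq00 l,
      ← coe_aeval_eq_eval]
    rfl
  have hord0 : ∀ l, Ord 1 (q0 l) f := by
    intro l i hi
    have hi0 : i = 0 := by omega
    rw [hi0]
    exact hlf00 l
  have hlf01 : ∀ l, lf 1 (q0 l) f = C (eval f D ^ m l) * ∑ p, C (ℓ l p) * X p := by
    intro l
    apply MvPolynomial.funext
    intro v
    rw [Helper819.Gr.eval_lf, Helper819.Gr.tayl_coeff_one, map_mul, eval_C, map_sum]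
    have h1 := hq01 l v
    have h2 : (∑ p, v p * aeval f (pderiv p (q0 l))) = dd (q0 l) f v := by
      unfold dd
      exact Finset.sum_congr rfl fun p _ => by rw [← coe_aeval_eq_eval]; rfl
    rw [h2, h1]
    congr 1
    exact Finset.sum_congr rfl fun p _ => by rw [map_mul, eval_C, eval_X]
  have hq0 : ∀ l, lf 0 (q l) f = 0 := by
    intro l
    exact (hord0 l).mul_left _ 0 one_pos
  have hq1 : ∀ l, lf 1 (q l) f = C (eval f B) * ∑ p, C (ℓ l p) * X p := by
    intro l
    rw [hqdef]
    change lf 1 (D ^ (M - m l) * q0 l) f = _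
    have h1 : eval f (D ^ (M - m l)) * eval f D ^ m l = eval f B := by
      rw [map_pow, ← pow_add, Nat.sub_add_cancel (hmM l), hBdef, map_pow]
    rw [Helper819.Gr.lf_mul_left (hord0 l), hlf01, ← mul_assoc, ← C_mul, h1]
  have hqf : ∀ l, eval f (q l) = 0 := by
    intro l
    rw [hqdef]
    change eval f (D ^ (M - m l) * q0 l) = 0
    rw [map_mul, hq00, mul_zero]
  clear_value q B
  let y : Fin ν → Oloc f := fun l => ⟨jj k N d (q l) / jj k N d B,
    mem_Oloc_of_semi (hqs l) hB hB0⟩
  have hy : ∀ l, (y l : KK k N d) = jj k N d (q l) / jj k N d B := fun _ => rfl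
  have hy0 : ∀ l, val0 f (y l) = 0 := by
    intro l
    rw [val0_eq hB0 (hy l), hqf, zero_div]
  have hgr : ∀ l p, val0 f (pdK p (y l : KK k N d)) = ℓ l p := by
    intro l p
    have hB2 : eval f (B ^ 2) ≠ 0 := by
      rw [map_pow]
      exact pow_ne_zero _ hB0
    rw [hy, pdK_div, val0_eq hB2 rfl, map_sub, map_mul (eval f), map_mul (eval f), hqf, zero_mul,
      sub_zero, map_pow]
    have h1 := congrArg (eval (Pi.single p (1 : k))) (hq1 l)
    rw [Helper819.Gr.eval_lf, Helper819.Gr.tayl_coeff_one, map_mul, eval_C, map_sum,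
      Finset.sum_eq_single p, Finset.sum_eq_single p] at h1
    · rw [Pi.single_eq_same, one_mul, map_mul, eval_C, eval_X, Pi.single_eq_same, mul_one] at h1
      have h2 : eval f (pderiv p (q l)) = eval f B * ℓ l p := by
        rw [← h1, ← coe_aeval_eq_eval]
        rfl
      rw [h2, div_eq_iff (pow_ne_zero _ hB0)]
      ring
    · intro b _ hb
      rw [map_mul, eval_C, eval_X, Pi.single_eq_of_ne hb, mul_zero]
    · intro h
      exact absurd (Finset.mem_univ _) h
    · intro b _ hb
      rw [Pi.single_eq_of_ne hb, zero_mul]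
    · intro h
      exact absurd (Finset.mem_univ _) h
  refine ⟨ν, e, y, hy0, ?_, ?_⟩
  · have h1 : (fun i => fun p => val0 f (pdK p (y i : KK k N d))) = ℓ := by
      funext i p
      exact hgr i p
    rw [h1, Fintype.linearIndependent_iff]
    intro g hg j
    have h2 : ∑ p, (∑ i, g i • ℓ i) p * τ j p = 0 := by
      rw [hg]
      simp
    have h3 : ∀ p, (∑ i, g i • ℓ i) p * τ j p = ∑ i, g i * (ℓ i p * τ j p) := by
      intro p
      rw [Finset.sum_apply, Finset.sum_mul]
      refine Finset.sum_congr rfl fun i _ => ?_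
      rw [Pi.smul_apply, smul_eq_mul]
      ring
    simp only [h3] at h2
    rw [Finset.sum_comm] at h2
    simp only [← Finset.mul_sum, hl1] at h2
    simpa using h2
  · apply le_antisymm
    · intro a ha
      rw [mem_maxO] at ha
      have hmem : incl f a ∈ Ideal.span (Set.range fun l => incl f (y l)) := by
        apply krull_mem (R := Rloc f) (M := Rloc f)
          (Ideal.span (Set.range fun l => incl f (y l)))
        intro n
        obtain ⟨b, w, P, Q, hb, hP, hQ, hQ0, hn, hab⟩ :=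
          approx hd hf hdec hB hB0 hqs hq0 hq1 y hy a ha n
        have h1 : incl f a = incl f b + (⟨(jj k N d Q)⁻¹, 1, Q, hQ0, by
            rw [map_one, one_div]⟩ : Rloc f) * toR f P := by
          apply Subtype.ext
          change (a : KK k N d) = (b : KK k N d) + (jj k N d Q)⁻¹ * jj k N d P
          rw [hab, div_eq_inv_mul]
        rw [h1]
        refine Submodule.add_mem _ (Submodule.mem_sup_left ?_) (Submodule.mem_sup_right ?_)
        · have h2 := Ideal.mem_map_of_mem (incl f) hb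
          rw [Ideal.map_span, ← Set.range_comp] at h2
          exact h2
        · rw [smul_eq_mul, Ideal.mul_top]
          exact Ideal.mul_mem_left _ _ (toR_pow (Ideal.pow_le_pow_right (Nat.le_succ n)
            (ord_pow hn)))
      rw [Ideal.mem_span_range_iff_exists_fun] at hmem
      obtain ⟨c, hc⟩ := hmem
      obtain ⟨r', hr', hr2⟩ := pure hd hf (a : KK k N d) a.2 (fun l => (y l : KK k N d))
        (fun l => (y l).2) (fun l => (c l : KK k N d)) (fun l => (c l).2) (by
          have h1 := congrArg (Rloc f).val hc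
          rw [map_sum] at h1
          exact h1.symm)
      rw [Ideal.mem_span_range_iff_exists_fun]
      refine ⟨fun l => ⟨r' l, hr' l⟩, ?_⟩
      apply Subtype.ext
      rw [hr2]
      push_cast
      rfl
    · rw [Ideal.span_le]
      rintro _ ⟨l, rfl⟩
      rw [SetLike.mem_coe, mem_maxO]
      exact hy0 l

end main

end

end Pool.Agent.W253.MLR
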