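import Pool.Agent.W512.ML.KK

/-!
ML-NOETH: semi-invariant representations, purity and the Noetherian property of the ring of
invariant rational functions regular at `f`.
-/

open MvPolynomial

namespace Pool.Agent.W253.ML

open Pool.Agent.W512.ML Pool.Agent.Helper819.Dyn Pool.Agent.Helper819.Apolar

noncomputable section

set_option linter.unusedSectionVars false

variable {k : Type} [Field k] {N d : ℕ}

theorem compT_ne [Infinite k] {f : Ix N d → k} {Q : SS k N d} (hQ : eval f Q ≠ 0)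
    (A : Matrix (Fin (N + 1)) (Fin (N + 1)) k) (hA : A.det ≠ 0) : compT A Q ≠ 0 := by
  intro h
  apply hQ
  have h1 := eval_compT A (actT A⁻¹ f) Q
  rw [h, map_zero, actT_actT, Matrix.nonsing_inv_mul _ (isUnit_iff_ne_zero.mpr hA), actT_one] at h1
  exact h1.symm

theorem compT_semi [Infinite k] {w : ℕ} {P : SS k N d} (hP : IsSemi w P)
    (A : Matrix (Fin (N + 1)) (Fin (N + 1)) k) : compT A P = C (A.det ^ w) * P := by
  apply MvPolynomial.funext
  intro c
  rw [eval_compT, hP A c, map_mul, eval_C]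

/-- a polynomial which is semi-invariant under invertible matrices is semi-invariant -/
theorem semi_of [Infinite k] {w : ℕ} {T : SS k N d}
    (h : ∀ A : Matrix (Fin (N + 1)) (Fin (N + 1)) k, A.det ≠ 0 →
      compT A T = C (A.det ^ w) * T) : IsSemi w T := by
  intro A c
  have h1 : aeval (orb c) T = dt (N + 1) k ^ w * C (eval c T) := by
    apply poly_ext
    intro B hB
    rw [eval_aeval_orb, ← eval_compT, h B hB, map_mul, eval_C, map_mul, map_pow, eval_dt, eval_C]
  rw [← eval_aeval_orb, h1, map_mul, map_pow, eval_dt, eval_C]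

theorem aeval_orb_semi [Infinite k] {w : ℕ} {P : SS k N d} (hP : IsSemi w P) (c : Ix N d → k) :
    aeval (orb c) P = dt (N + 1) k ^ w * C (eval c P) := by
  apply poly_ext
  intro B _
  rw [eval_aeval_orb, hP B c, map_mul, map_pow, eval_dt, eval_C]

theorem invPair_compT [Infinite k] {P Q : SS k N d} (h : InvPair P Q)
    (A : Matrix (Fin (N + 1)) (Fin (N + 1)) k) (hA : A.det ≠ 0) :
    compT A P * Q = P * compT A Q := by
  apply MvPolynomial.funext
  intro c
  rw [map_mul, map_mul, eval_compT, eval_compT]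
  exact h A hA c

theorem invPair_semi {w : ℕ} {P Q : SS k N d} (hP : IsSemi w P) (hQ : IsSemi w Q) :
    InvPair P Q := by
  intro A _ c
  rw [hP A c, hQ A c]
  ring

/-- semi-invariant denominators -/
theorem mem_Oloc_of_semi {f : Ix N d → k} {w : ℕ} {P Q : SS k N d} (hP : IsSemi w P)
    (hQ : IsSemi w Q) (hQ0 : eval f Q ≠ 0) : jj k N d P / jj k N d Q ∈ Oloc f :=
  ⟨P, Q, hQ0, rfl, invPair_semi hP hQ⟩

variable [IsAlgClosed k] [CharZero k]

/-- a stable ideal with an element not vanishing at `f` contains a semi-invariant not vanishing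
at `f` -/
theorem exists_semi_mem (hd : 2 ≤ d) {f : Ix N d → k} (hf : NZ (tup f)) (I : Ideal (SS k N d))
    (hI : ∀ A : Matrix (Fin (N + 1)) (Fin (N + 1)) k, A.det ≠ 0 → ∀ S ∈ I, compT A S ∈ I)
    (hQ : ∃ Q ∈ I, eval f Q ≠ 0) :
    ∃ (w : ℕ) (R : SS k N d), IsSemi w R ∧ eval f R ≠ 0 ∧ R ∈ I := by
  obtain ⟨Q, hQI, hQ0⟩ := hQ
  obtain ⟨w, R, h1, h2, h3⟩ := exists_semi hd hf {c | ∀ S ∈ I, eval c S = 0} (by
    intro c hc S hS
    exact hc S (fun z hz => hz S hS)) (by
    intro A hA z hz S hS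
    rw [← eval_compT]
    exact hz _ (hI A hA S hS)) (by
    intro hcon
    exact hQ0 (hcon Q hQI))
  have hrad : R ∈ I.radical := by
    rw [← vanishingIdeal_zeroLocus_eq_radical (K := k), mem_vanishingIdeal_iff]
    intro z hz
    have h4 : eval z R = 0 := h3 z (fun S hS => by
      have := mem_zeroLocus_iff.mp hz S hS
      rw [← coe_aeval_eq_eval]
      exact this)
    rw [← coe_aeval_eq_eval] at h4
    exact h4
  obtain ⟨m, hm⟩ := hrad
  exact ⟨w * m, R ^ m, h1.pow m, by rw [map_pow]; exact pow_ne_zero m h2, hm⟩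

/-- (1) -/
theorem semi_rep (hd : 2 ≤ d) {f : Ix N d → k} (hf : NZ (tup f)) (a : KK k N d)
    (ha : a ∈ Oloc f) : ∃ (w : ℕ) (P Q : SS k N d), IsSemi w P ∧ IsSemi w Q ∧ eval f Q ≠ 0 ∧
      a = jj k N d P / jj k N d Q := by
  obtain ⟨P, Q, hQ, rfl, hPQ⟩ := ha
  have hinf : Infinite k := inferInstance
  let I : Ideal (SS k N d) :=
    { carrier := {S | Q ∣ S * P}
      add_mem' := fun {a b} ha hb => by
        show Q ∣ (a + b) * P
        rw [add_mul]
        exact dvd_add ha hb
      zero_mem' := by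
        show Q ∣ 0 * P
        rw [zero_mul]
        exact dvd_zero _
      smul_mem' := fun c a ha => by
        show Q ∣ (c * a) * P
        rw [mul_assoc]
        exact Dvd.dvd.mul_left ha c }
  have hI : ∀ S, S ∈ I ↔ Q ∣ S * P := fun _ => Iff.rfl
  have hQ0 : Q ≠ 0 := by rintro rfl; exact hQ (map_zero _)
  obtain ⟨w, R, hR, hRf, hRI⟩ := exists_semi_mem hd hf I (by
    intro A hA S hS
    rw [hI] at hS ⊢
    obtain ⟨T, hT⟩ := hS
    refine ⟨compT A T, ?_⟩
    apply mul_right_cancel₀ (compT_ne hQ A hA)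
    have h1 := congrArg (compT A) hT
    rw [map_mul, map_mul] at h1
    have h2 := invPair_compT hPQ A hA
    linear_combination Q * h1 - compT A S * h2) ⟨Q, by rw [hI]; exact dvd_mul_right _ _, hQ⟩
  obtain ⟨T, hT⟩ := (hI R).1 hRI
  refine ⟨w, T, R, ?_, hR, hRf, ?_⟩
  · apply semi_of
    intro A hA
    apply mul_right_cancel₀ (mul_ne_zero (compT_ne hQ A hA) hQ0)
    have h1 := congrArg (compT A) hT
    rw [map_mul, map_mul, compT_semi hR] at h1
    have h2 := invPair_compT hPQ A hA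
    linear_combination -Q * h1 + (C (A.det ^ w) * R) * h2 + (C (A.det ^ w) * compT A Q) * hT
  · rw [div_eq_div_iff (jj_ne hQ) (jj_ne hRf), ← map_mul, ← map_mul, mul_comm P R, hT, mul_comm]

theorem sharp_of_semi {w : ℕ} {P : SS k N d} (hP : IsSemi w P) : sharp w P = P := by
  have hinf : Infinite k := inferInstance
  apply MvPolynomial.funext
  intro c
  rw [eval_sharp, aeval_orb_semi hP, mul_comm, rho_smul, rho_dt, mul_one]

theorem rho_dt_mul (w v : ℕ) (p : KA k N) : rho (w + v) (dt (N + 1) k ^ v * p) = rho w p := by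
  induction v with
  | zero => rw [pow_zero, one_mul, add_zero]
  | succ v ih => rw [pow_succ', mul_assoc, ← add_assoc, rho_det_mul, ih]

theorem sharp_mul_semi' (w : ℕ) {v : ℕ} {P : SS k N d} (hP : IsSemi v P) (T : SS k N d) :
    sharp (w + v) (T * P) = sharp w T * P := by
  have hinf : Infinite k := inferInstance
  apply MvPolynomial.funext
  intro c
  rw [eval_sharp, map_mul, aeval_orb_semi hP, map_mul, eval_sharp]
  have h1 : aeval (orb c) T * (dt (N + 1) k ^ v * C (eval c P)) =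
      C (eval c P) * (dt (N + 1) k ^ v * aeval (orb c) T) := by ring
  rw [h1, rho_smul, rho_dt_mul, mul_comm]

theorem sharp_sum' (w : ℕ) {ι : Type} (s : Finset ι) (g : ι → SS k N d) :
    sharp w (∑ i ∈ s, g i) = ∑ i ∈ s, sharp w (g i) := by
  have hinf : Infinite k := inferInstance
  apply MvPolynomial.funext
  intro c
  rw [eval_sharp, map_sum, rho_sum, map_sum]
  exact Finset.sum_congr rfl (fun i _ => (eval_sharp w c (g i)).symm)

/-- common semi-invariant denominators -/
theorem common_semi (hd : 2 ≤ d) {f : Ix N d → k} (hf : NZ (tup f)) {ι : Type} (s : Finset ι)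
    (b : ι → KK k N d) (hb : ∀ i ∈ s, b i ∈ Oloc f) :
    ∃ (w : ℕ) (B : SS k N d) (A : ι → SS k N d), IsSemi w B ∧ eval f B ≠ 0 ∧
      ∀ i ∈ s, IsSemi w (A i) ∧ b i = jj k N d (A i) / jj k N d B := by
  classical
  induction s using Finset.induction_on with
  | empty =>
    exact ⟨0, 1, fun _ => 0, IsSemi.one, by simp, fun i hi => absurd hi (Finset.notMem_empty i)⟩
  | insert a s ha ih =>
    obtain ⟨w, B, A, h1, h2, h3⟩ := ih (fun i hi => hb i (Finset.mem_insert_of_mem hi))
    obtain ⟨w', P, Q, h4, h5, h6, h7⟩ := semi_rep hd hf (b a) (hb a (Finset.mem_insert_self a s))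
    refine ⟨w + w', B * Q, fun i => if i = a then B * P else A i * Q, h1.mul h5, ?_, ?_⟩
    · rw [map_mul]
      exact mul_ne_zero h2 h6
    · intro i hi
      dsimp only
      by_cases hia : i = a
      · subst hia
        rw [if_pos rfl]
        refine ⟨h1.mul h4, ?_⟩
        rw [h7, map_mul, map_mul, mul_div_mul_left _ _ (jj_ne h2)]
      · rw [if_neg hia]
        have hi' : i ∈ s := (Finset.mem_insert.1 hi).resolve_left hia
        refine ⟨(h3 i hi').1.mul h5, ?_⟩
        rw [(h3 i hi').2, map_mul, map_mul, mul_div_mul_right _ _ (jj_ne h6)]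

/-- common denominators -/
theorem common_R {f : Ix N d → k} {ι : Type} (s : Finset ι)
    (r : ι → KK k N d) (hr : ∀ i ∈ s, r i ∈ Rloc f) :
    ∃ (Q : SS k N d) (S : ι → SS k N d), eval f Q ≠ 0 ∧
      ∀ i ∈ s, r i = jj k N d (S i) / jj k N d Q := by
  classical
  induction s using Finset.induction_on with
  | empty => exact ⟨1, fun _ => 0, by simp, fun i hi => absurd hi (Finset.notMem_empty i)⟩
  | insert a s ha ih =>
    obtain ⟨B, A, h2, h3⟩ := ih (fun i hi => hr i (Finset.mem_insert_of_mem hi))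
    obtain ⟨P, Q, h6, h7⟩ := hr a (Finset.mem_insert_self a s)
    refine ⟨B * Q, fun i => if i = a then B * P else A i * Q, ?_, ?_⟩
    · rw [map_mul]
      exact mul_ne_zero h2 h6
    · intro i hi
      dsimp only
      by_cases hia : i = a
      · subst hia
        rw [if_pos rfl, h7, map_mul, map_mul, mul_div_mul_left _ _ (jj_ne h2)]
      · rw [if_neg hia]
        have hi' : i ∈ s := (Finset.mem_insert.1 hi).resolve_left hia
        rw [h3 i hi', map_mul, map_mul, mul_div_mul_right _ _ (jj_ne h6)]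

/-- (2), general index type -/
theorem pure' (hd : 2 ≤ d) {f : Ix N d → k} (hf : NZ (tup f)) {ι : Type} (s : Finset ι)
    (a : KK k N d) (ha : a ∈ Oloc f) (b : ι → KK k N d) (hb : ∀ i ∈ s, b i ∈ Oloc f)
    (r : ι → KK k N d) (hr : ∀ i ∈ s, r i ∈ Rloc f) (h : a = ∑ i ∈ s, r i * b i) :
    ∃ r' : ι → KK k N d, (∀ i, r' i ∈ Oloc f) ∧ a = ∑ i ∈ s, r' i * b i := by
  classical
  have hinf : Infinite k := inferInstance
  obtain ⟨w0, P0, Q0, k1, k2, k3, k4⟩ := semi_rep hd hf a ha
  obtain ⟨w, B, A, h1, h2, h3⟩ := common_semi hd hf s b hb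
  obtain ⟨Q, S, h4, h5⟩ := common_R s r hr
  -- common denominator `Q0 * B`
  set W := w0 + w with hW
  have hA0 : IsSemi W (P0 * B) := k1.mul h1
  have hAi : ∀ i ∈ s, IsSemi W (Q0 * A i) := fun i hi => k2.mul (h3 i hi).1
  have hDD : IsSemi W (Q0 * B) := k2.mul h1
  have hD0 : eval f (Q0 * B) ≠ 0 := by rw [map_mul]; exact mul_ne_zero k3 h2
  have ea : a = jj k N d (P0 * B) / jj k N d (Q0 * B) := by
    rw [k4, map_mul, map_mul, mul_div_mul_right _ _ (jj_ne h2)]
  have eb : ∀ i ∈ s, b i = jj k N d (Q0 * A i) / jj k N d (Q0 * B) := by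
    intro i hi
    rw [(h3 i hi).2, map_mul, map_mul, mul_div_mul_left _ _ (jj_ne k3)]
  -- the relation
  have hrel : Q * (P0 * B) = ∑ i ∈ s, S i * (Q0 * A i) := by
    apply jj_inj
    have e1 : jj k N d (P0 * B) / jj k N d (Q0 * B) =
        (∑ i ∈ s, jj k N d (S i) * jj k N d (Q0 * A i)) /
          (jj k N d Q * jj k N d (Q0 * B)) := by
      rw [← ea, h, Finset.sum_div]
      refine Finset.sum_congr rfl (fun i hi => ?_)
      rw [h5 i hi, eb i hi, div_mul_div_comm]
    have hQ' := jj_ne h4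
    have hD' := jj_ne hD0
    rw [div_eq_div_iff hD' (mul_ne_zero hQ' hD')] at e1
    have e2 : jj k N d (P0 * B) * jj k N d Q = ∑ i ∈ s, jj k N d (S i) * jj k N d (Q0 * A i) := by
      apply mul_right_cancel₀ hD'
      rw [← e1]; ring
    rw [map_mul, mul_comm, e2, map_sum]
    exact Finset.sum_congr rfl (fun i _ => (map_mul _ _ _).symm)
  -- the ideal
  let I : Ideal (SS k N d) :=
    { carrier := {T | ∃ U : ι → SS k N d, T * (P0 * B) = ∑ i ∈ s, U i * (Q0 * A i)}
      add_mem' := by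
        rintro x y ⟨U, hU⟩ ⟨V, hV⟩
        refine ⟨fun i => U i + V i, ?_⟩
        rw [add_mul, hU, hV, ← Finset.sum_add_distrib]
        exact Finset.sum_congr rfl (fun i _ => by ring)
      zero_mem' := ⟨fun _ => 0, by simp⟩
      smul_mem' := by
        rintro c x ⟨U, hU⟩
        refine ⟨fun i => c * U i, ?_⟩
        rw [smul_eq_mul, mul_assoc, hU, Finset.mul_sum]
        exact Finset.sum_congr rfl (fun i _ => by ring) }
  have hI : ∀ T, T ∈ I ↔ ∃ U : ι → SS k N d, T * (P0 * B) = ∑ i ∈ s, U i * (Q0 * A i) :=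
    fun _ => Iff.rfl
  obtain ⟨v, R, hR, hRf, hRI⟩ := exists_semi_mem hd hf I (by
    intro g hg T hT
    rw [hI] at hT ⊢
    obtain ⟨U, hU⟩ := hT
    refine ⟨fun i => compT g (U i), ?_⟩
    have hC : (C (g.det ^ W) : SS k N d) ≠ 0 := by
      rw [Ne, C_eq_zero]
      exact pow_ne_zero _ hg
    apply mul_left_cancel₀ hC
    have e1 := congrArg (compT g) hU
    rw [map_mul, map_sum, compT_semi hA0] at e1
    rw [← mul_assoc, mul_comm (C (g.det ^ W)) (compT g T), mul_assoc, e1, Finset.mul_sum]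
    refine Finset.sum_congr rfl (fun i hi => ?_)
    rw [map_mul, compT_semi (hAi i hi)]
    ring) ⟨Q, (hI Q).2 ⟨S, hrel⟩, h4⟩
  obtain ⟨T, hT⟩ := (hI R).1 hRI
  -- average
  have hav : R * (P0 * B) = ∑ i ∈ s, sharp v (T i) * (Q0 * A i) := by
    have e1 := congrArg (sharp (v + W)) hT
    rw [sharp_of_semi (hR.mul hA0), sharp_sum'] at e1
    rw [e1]
    exact Finset.sum_congr rfl (fun i hi => sharp_mul_semi' v (hAi i hi) (T i))
  refine ⟨fun i => jj k N d (sharp v (T i)) / jj k N d R,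
    fun i => mem_Oloc_of_semi (isSemi_sharp v (T i)) hR hRf, ?_⟩
  have hR' := jj_ne hRf
  have hD' := jj_ne hD0
  rw [ea]
  have e2 : ∑ i ∈ s, jj k N d (sharp v (T i)) / jj k N d R * b i =
      (∑ i ∈ s, jj k N d (sharp v (T i)) * jj k N d (Q0 * A i)) /
        (jj k N d R * jj k N d (Q0 * B)) := by
    rw [Finset.sum_div]
    refine Finset.sum_congr rfl (fun i hi => ?_)
    rw [eb i hi, div_mul_div_comm]
  rw [e2, div_eq_div_iff hD' (mul_ne_zero hR' hD')]
  have e3 : ∑ i ∈ s, jj k N d (sharp v (T i)) * jj k N d (Q0 * A i) =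
      jj k N d R * jj k N d (P0 * B) := by
    rw [← map_mul, hav, map_sum]
    exact Finset.sum_congr rfl (fun i _ => (map_mul _ _ _).symm)
  rw [e3]
  ring

/-- (2) -/
theorem pure (hd : 2 ≤ d) {f : Ix N d → k} (hf : NZ (tup f)) {n : ℕ} (a : KK k N d)
    (ha : a ∈ Oloc f) (b : Fin n → KK k N d) (hb : ∀ i, b i ∈ Oloc f) (r : Fin n → KK k N d)
    (hr : ∀ i, r i ∈ Rloc f) (h : a = ∑ i, r i * b i) :
    ∃ r' : Fin n → KK k N d, (∀ i, r' i ∈ Oloc f) ∧ a = ∑ i, r' i * b i :=
  pure' hd hf Finset.univ a ha b (fun i _ => hb i) r (fun i _ => hr i) h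

/-- (3) -/
theorem noeth (hd : 2 ≤ d) {f : Ix N d → k} (hf : NZ (tup f)) : IsNoetherianRing (Oloc f) := by
  classical
  rw [isNoetherianRing_iff_ideal_fg]
  intro J
  -- numerators
  let G : Set (SS k N d) := {P | ∃ (Q : SS k N d) (a : Oloc f), eval f Q ≠ 0 ∧ a ∈ J ∧
    (a : KK k N d) = jj k N d P / jj k N d Q}
  have hfg : (Ideal.span G).FG := (inferInstance : IsNoetherianRing (SS k N d)).noetherian _
  obtain ⟨s, hs, hspan⟩ := (Submodule.fg_span_iff_fg_span_finset_subset G).1 hfg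
  have hch : ∀ P : SS k N d, ∃ (Q : SS k N d) (a : Oloc f), P ∈ G → eval f Q ≠ 0 ∧ a ∈ J ∧
      (a : KK k N d) = jj k N d P / jj k N d Q := by
    intro P
    by_cases hP : P ∈ G
    · obtain ⟨Q, a, h⟩ := hP
      exact ⟨Q, a, fun _ => h⟩
    · exact ⟨1, 0, fun h => absurd h hP⟩
  choose q a hqa using hch
  refine ⟨s.image a, ?_⟩
  apply le_antisymm
  · rw [Submodule.span_le]
    intro x hx
    rw [Finset.mem_coe, Finset.mem_image] at hx
    obtain ⟨P, hP, rfl⟩ := hx
    exact (hqa P (hs hP)).2.1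
  · intro x hx
    obtain ⟨P, Q, hQ, hPQ, _⟩ := x.2
    have hPG : P ∈ G := ⟨Q, x, hQ, hx, hPQ⟩
    have hPs : P ∈ Submodule.span (SS k N d) (s : Set (SS k N d)) := by
      rw [← hspan]
      exact Submodule.subset_span hPG
    rw [Submodule.mem_span_finset] at hPs
    obtain ⟨c, _, hc⟩ := hPs
    have hrel : (x : KK k N d) = ∑ P' ∈ s, (jj k N d (c P' * q P') / jj k N d Q) *
        ((a P' : Oloc f) : KK k N d) := by
      rw [hPQ, ← hc, map_sum, Finset.sum_div]
      refine Finset.sum_congr rfl (fun P' hP' => ?_)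
      obtain ⟨g1, _, g3⟩ := hqa P' (hs hP')
      have g1' := jj_ne g1
      have hQ' := jj_ne hQ
      rw [g3, smul_eq_mul, map_mul, map_mul]
      field_simp
    obtain ⟨r', hr', hr2⟩ := pure' hd hf s (x : KK k N d) x.2
      (fun P' => ((a P' : Oloc f) : KK k N d)) (fun P' _ => (a P').2)
      (fun P' => jj k N d (c P' * q P') / jj k N d Q) (fun P' _ => ⟨_, Q, hQ, rfl⟩) hrel
    have hx2 : x = ∑ P' ∈ s, (⟨r' P', hr' P'⟩ : Oloc f) * a P' := by
      apply Subtype.ext
      rw [hr2]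
      push_cast
      rfl
    rw [hx2]
    refine Submodule.sum_mem _ (fun P' hP' => ?_)
    apply Ideal.mul_mem_left
    exact Submodule.subset_span (Finset.mem_coe.2 (Finset.mem_image_of_mem a hP'))

end

end Pool.Agent.W253.ML
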